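import Pool.Agent.W611.RO.Stms

/-!
RO-ROT: the rotation automorphisms.
-/

set_option autoImplicit false
open scoped ComplexConjugate InnerProductSpace Topology BoundedContinuousFunction
open Filter MeasureTheory NormedSpace

namespace Pool.Agent.W135.RO.Rot
open Pool.Agent.H712R5.BO Pool.Agent.W611.RO

/-- Operators agreeing on a Hilbert basis are equal. -/
theorem ext_basis {G H : Type} [NormedAddCommGroup H] [InnerProductSpace ℂ H]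
    (b : HilbertBasis G ℂ H) (A B : H →L[ℂ] H) (h : ∀ k, A (b k) = B (b k)) : A = B := by
  have hd : Dense ((Submodule.span ℂ (Set.range b) : Submodule ℂ H) : Set H) := by
    rw [Submodule.dense_iff_topologicalClosure_eq_top]
    exact b.dense_span
  refine ContinuousLinearMap.ext_on hd ?_
  rintro _ ⟨k, rfl⟩
  exact h k

section
variable {G Ω H : Type} [Group G] [Countable G] [MeasurableSpace Ω] [MulAction G Ω]
  [NormedAddCommGroup H] [InnerProductSpace ℂ H] [CompleteSpace H]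

/-- The phase. -/
noncomputable def ph (χ : G → ℤ) (t : ℝ) (k : G) : ℂ := Complex.exp (t * (χ k : ℂ) * Complex.I)

omit [Countable G] [MeasurableSpace Ω] [MulAction G Ω] [NormedAddCommGroup H]
  [InnerProductSpace ℂ H] [CompleteSpace H] in
theorem ph_mul {χ : G → ℤ} (hχ : ∀ g h, χ (g * h) = χ g + χ h) (t : ℝ) (g h : G) :
    ph χ t (g * h) = ph χ t g * ph χ t h := by
  unfold ph
  rw [hχ, ← Complex.exp_add]
  congr 1
  push_cast
  ring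

omit [Countable G] in
theorem ph_ne (χ : G → ℤ) (t : ℝ) (g : G) : ph χ t g ≠ 0 := Complex.exp_ne_zero _

omit [Countable G] in
theorem ph_one {χ : G → ℤ} (hχ : ∀ g h, χ (g * h) = χ g + χ h) (t : ℝ) : ph χ t 1 = 1 := by
  have h1 := ph_mul hχ t 1 1
  rw [one_mul] at h1
  have h2 := ph_ne χ t 1
  field_simp at h1
  exact h1.symm

omit [Countable G] in
theorem ph_norm (χ : G → ℤ) (t : ℝ) (g : G) : ‖ph χ t g‖ = 1 := by
  unfold ph
  have : ((t : ℂ) * (χ g : ℂ) * Complex.I) = ((t * (χ g : ℝ) : ℝ) : ℂ) * Complex.I := by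
    push_cast; ring
  rw [this, Complex.norm_exp_ofReal_mul_I]

theorem star_basis {b : HilbertBasis G ℂ H} {χ : G → ℤ} {t : ℝ} {V : unitary (H →L[ℂ] H)}
    (hV : ∀ k, (V : H →L[ℂ] H) (b k) = ph χ t k • b k) (k : G) :
    (star (V : H →L[ℂ] H)) (b k) = (ph χ t k)⁻¹ • b k := by
  have e2 : star (V : H →L[ℂ] H) * (V : H →L[ℂ] H) = 1 := (Unitary.mem_iff.mp V.2).1
  have h1 : (star (V : H →L[ℂ] H)) ((V : H →L[ℂ] H) (b k)) = b k :=
    congrArg (fun T : H →L[ℂ] H => T (b k)) e2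
  rw [hV k, map_smul] at h1
  rw [eq_inv_smul_iff₀ (ph_ne χ t k)]
  exact h1

theorem comm_V {b : HilbertBasis G ℂ H} {L : G → unitary (H →L[ℂ] H)} (hL : Reg b L)
    {χ : G → ℤ} (hχ : ∀ g h, χ (g * h) = χ g + χ h) {t : ℝ} {V : unitary (H →L[ℂ] H)}
    (hV : ∀ k, (V : H →L[ℂ] H) (b k) = ph χ t k • b k) (g : G) :
    (V : H →L[ℂ] H) * (L g : H →L[ℂ] H) = ph χ t g • ((L g : H →L[ℂ] H) * (V : H →L[ℂ] H)) := by
  refine ext_basis b _ _ fun k => ?_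
  show (V : H →L[ℂ] H) ((L g : H →L[ℂ] H) (b k))
    = ph χ t g • ((L g : H →L[ℂ] H) ((V : H →L[ℂ] H) (b k)))
  rw [hL g k, hV, hV, map_smul, hL g k, ph_mul hχ, smul_smul]

theorem comm_sV {b : HilbertBasis G ℂ H} {L : G → unitary (H →L[ℂ] H)} (hL : Reg b L)
    {χ : G → ℤ} (hχ : ∀ g h, χ (g * h) = χ g + χ h) {t : ℝ} {V : unitary (H →L[ℂ] H)}
    (hV : ∀ k, (V : H →L[ℂ] H) (b k) = ph χ t k • b k) (g : G) :
    star (V : H →L[ℂ] H) * (L g : H →L[ℂ] H)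
      = (ph χ t g)⁻¹ • ((L g : H →L[ℂ] H) * star (V : H →L[ℂ] H)) := by
  refine ext_basis b _ _ fun k => ?_
  show (star (V : H →L[ℂ] H)) ((L g : H →L[ℂ] H) (b k))
    = (ph χ t g)⁻¹ • ((L g : H →L[ℂ] H) ((star (V : H →L[ℂ] H)) (b k)))
  rw [hL g k, star_basis hV, star_basis hV, map_smul, hL g k, ph_mul hχ, smul_smul, mul_inv]

/-- The constant field. -/
noncomputable def cst (Ω : Type) (V : H →L[ℂ] H) : Dis Ω →ᵇ (H →L[ℂ] H) :=
  BoundedContinuousFunction.const (Dis Ω) V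

theorem conj_mem {b : HilbertBasis G ℂ H} {L : G → unitary (H →L[ℂ] H)} (hL : Reg b L)
    {χ : G → ℤ} (hχ : ∀ g h, χ (g * h) = χ g + χ h) {t : ℝ} {V : unitary (H →L[ℂ] H)}
    (hV : ∀ k, (V : H →L[ℂ] H) (b k) = ph χ t k • b k) (A : Dis Ω →ᵇ (H →L[ℂ] H))
    (hA : A ∈ CF (Ω := Ω) b L) :
    star (cst Ω (V : H →L[ℂ] H)) * A * cst Ω (V : H →L[ℂ] H) ∈ CF (Ω := Ω) b L := by
  rw [mem_CF] at hA ⊢
  refine ⟨fun x y => ?_, fun g ω => ?_⟩
  · have h1 : ∀ ω : Ω, ⟪x, ((star (cst Ω (V : H →L[ℂ] H)) * A * cst Ω (V : H →L[ℂ] H) :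
        Dis Ω →ᵇ (H →L[ℂ] H)) : Dis Ω → (H →L[ℂ] H)) ω y⟫_ℂ
        = ⟪(V : H →L[ℂ] H) x, (A : Dis Ω → (H →L[ℂ] H)) ω ((V : H →L[ℂ] H) y)⟫_ℂ := by
      intro ω
      show ⟪x, (star (V : H →L[ℂ] H)) ((A : Dis Ω → (H →L[ℂ] H)) ω ((V : H →L[ℂ] H) y))⟫_ℂ = _
      rw [ContinuousLinearMap.star_eq_adjoint, ContinuousLinearMap.adjoint_inner_right]
    simp_rw [h1]
    exact hA.1 _ _
  · show star (V : H →L[ℂ] H) * (A : Dis Ω → (H →L[ℂ] H)) (g • ω : Ω) * (V : H →L[ℂ] H)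
        * (L g : H →L[ℂ] H) = (L g : H →L[ℂ] H) * (star (V : H →L[ℂ] H)
        * (A : Dis Ω → (H →L[ℂ] H)) ω * (V : H →L[ℂ] H))
    have h1 := hA.2 g ω
    have h2 := comm_V hL hχ hV g
    have h3 := comm_sV hL hχ hV g
    calc star (V : H →L[ℂ] H) * (A : Dis Ω → (H →L[ℂ] H)) (g • ω : Ω) * (V : H →L[ℂ] H)
          * (L g : H →L[ℂ] H)
        = star (V : H →L[ℂ] H) * (A : Dis Ω → (H →L[ℂ] H)) (g • ω : Ω) * ((V : H →L[ℂ] H)
          * (L g : H →L[ℂ] H)) := mul_assoc _ _ _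
      _ = ph χ t g • (star (V : H →L[ℂ] H) * ((A : Dis Ω → (H →L[ℂ] H)) (g • ω : Ω)
          * (L g : H →L[ℂ] H)) * (V : H →L[ℂ] H)) := by
          rw [h2, mul_smul_comm]; simp only [mul_assoc]
      _ = ph χ t g • ((star (V : H →L[ℂ] H) * (L g : H →L[ℂ] H))
          * (A : Dis Ω → (H →L[ℂ] H)) ω * (V : H →L[ℂ] H)) := by
          rw [h1]; simp only [mul_assoc]
      _ = (L g : H →L[ℂ] H) * (star (V : H →L[ℂ] H)
        * (A : Dis Ω → (H →L[ℂ] H)) ω * (V : H →L[ℂ] H)) := by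
          rw [h3, smul_mul_assoc, smul_mul_assoc, smul_smul, mul_inv_cancel₀ (ph_ne χ t g),
            one_smul]
          simp only [mul_assoc]

theorem cst_unit (V : unitary (H →L[ℂ] H)) :
    star (cst Ω (V : H →L[ℂ] H)) * cst Ω (V : H →L[ℂ] H) = 1 ∧
    cst Ω (V : H →L[ℂ] H) * star (cst Ω (V : H →L[ℂ] H)) = 1 := by
  constructor
  · ext1 ω
    show star (V : H →L[ℂ] H) * (V : H →L[ℂ] H) = 1
    exact (Unitary.mem_iff.mp V.2).1
  · ext1 ω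
    show (V : H →L[ℂ] H) * star (V : H →L[ℂ] H) = 1
    exact (Unitary.mem_iff.mp V.2).2

/-- The rotation. -/
noncomputable def rot {b : HilbertBasis G ℂ H} {L : G → unitary (H →L[ℂ] H)} (hL : Reg b L)
    {χ : G → ℤ} (hχ : ∀ g h, χ (g * h) = χ g + χ h) {t : ℝ} {V : unitary (H →L[ℂ] H)}
    (hV : ∀ k, (V : H →L[ℂ] H) (b k) = ph χ t k • b k) :
    CF (Ω := Ω) b L →⋆ₐ[ℂ] CF (Ω := Ω) b L where
  toFun := fun A => ⟨star (cst Ω (V : H →L[ℂ] H)) * (A : Dis Ω →ᵇ (H →L[ℂ] H))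
    * cst Ω (V : H →L[ℂ] H), conj_mem hL hχ hV _ A.2⟩
  map_one' := by
    refine Subtype.ext ?_
    show star (cst Ω (V : H →L[ℂ] H)) * 1 * cst Ω (V : H →L[ℂ] H) = 1
    rw [mul_one, (cst_unit V).1]
  map_mul' := by
    intro A B
    refine Subtype.ext ?_
    show star (cst Ω (V : H →L[ℂ] H)) * ((A : Dis Ω →ᵇ (H →L[ℂ] H)) * (B : Dis Ω →ᵇ (H →L[ℂ] H)))
        * cst Ω (V : H →L[ℂ] H)
      = (star (cst Ω (V : H →L[ℂ] H)) * (A : Dis Ω →ᵇ (H →L[ℂ] H)) * cst Ω (V : H →L[ℂ] H))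
        * (star (cst Ω (V : H →L[ℂ] H)) * (B : Dis Ω →ᵇ (H →L[ℂ] H)) * cst Ω (V : H →L[ℂ] H))
    calc _ = star (cst Ω (V : H →L[ℂ] H)) * (A : Dis Ω →ᵇ (H →L[ℂ] H)) * 1
          * (B : Dis Ω →ᵇ (H →L[ℂ] H)) * cst Ω (V : H →L[ℂ] H) := by
            rw [mul_one]; simp only [mul_assoc]
      _ = _ := by
            rw [← (cst_unit (Ω := Ω) V).2]; simp only [mul_assoc]
  map_zero' := by
    refine Subtype.ext ?_
    show star (cst Ω (V : H →L[ℂ] H)) * 0 * cst Ω (V : H →L[ℂ] H) = 0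
    rw [mul_zero, zero_mul]
  map_add' := by
    intro A B
    refine Subtype.ext ?_
    show star (cst Ω (V : H →L[ℂ] H)) * ((A : Dis Ω →ᵇ (H →L[ℂ] H)) + (B : Dis Ω →ᵇ (H →L[ℂ] H)))
        * cst Ω (V : H →L[ℂ] H)
      = (star (cst Ω (V : H →L[ℂ] H)) * (A : Dis Ω →ᵇ (H →L[ℂ] H)) * cst Ω (V : H →L[ℂ] H))
        + (star (cst Ω (V : H →L[ℂ] H)) * (B : Dis Ω →ᵇ (H →L[ℂ] H)) * cst Ω (V : H →L[ℂ] H))
    rw [mul_add, add_mul]
  commutes' := by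
    intro r
    refine Subtype.ext ?_
    show star (cst Ω (V : H →L[ℂ] H)) * (algebraMap ℂ (Dis Ω →ᵇ (H →L[ℂ] H)) r)
        * cst Ω (V : H →L[ℂ] H) = algebraMap ℂ (Dis Ω →ᵇ (H →L[ℂ] H)) r
    rw [← Algebra.commutes, mul_assoc, (cst_unit V).1, mul_one]
  map_star' := by
    intro A
    refine Subtype.ext ?_
    ext1 ω
    show star (V : H →L[ℂ] H) * star ((A : Dis Ω →ᵇ (H →L[ℂ] H)) ω) * (V : H →L[ℂ] H)
      = star (star (V : H →L[ℂ] H) * ((A : Dis Ω →ᵇ (H →L[ℂ] H)) ω) * (V : H →L[ℂ] H))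
    rw [star_mul, star_mul, star_star, mul_assoc]

end

/-- RO-ROT. -/
theorem t_ROT : P_UNI → P_ROT := by
  intro hU G Ω H _ _ _ _ _ _ _ P _ b L hL χ hχ t
  obtain ⟨V, hV⟩ := (hU G H b (Equiv.refl G) (ph χ t)).1 (ph_norm χ t)
  have hV' : ∀ k, (V : H →L[ℂ] H) (b k) = ph χ t k • b k := hV
  refine ⟨rot hL hχ hV', fun A => ?_, fun g a X hX => ?_⟩
  · rw [tau_apply, tau_apply]
    refine integral_congr_ae (Eventually.of_forall fun ω => ?_)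
    show ⟪b 1, (star (V : H →L[ℂ] H)) (((A : Dis Ω →ᵇ (H →L[ℂ] H)) : Dis Ω → (H →L[ℂ] H)) ω
      ((V : H →L[ℂ] H) (b 1)))⟫_ℂ = ⟪b 1, ev b L ω A (b 1)⟫_ℂ
    rw [ContinuousLinearMap.star_eq_adjoint, ContinuousLinearMap.adjoint_inner_right, hV' 1,
      ph_one hχ, one_smul]
    rfl
  · have h0 : ∀ (ω : Ω) (k : G), (star (V : H →L[ℂ] H)) (((X : Dis Ω →ᵇ (H →L[ℂ] H)) :
        Dis Ω → (H →L[ℂ] H)) ω ((V : H →L[ℂ] H) (b k))) = Complex.exp (t * (χ g : ℂ) * Complex.I)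
        • (((X : Dis Ω →ᵇ (H →L[ℂ] H)) : Dis Ω → (H →L[ℂ] H)) ω (b k)) := by
      intro ω k
      have h1 : ((X : Dis Ω →ᵇ (H →L[ℂ] H)) : Dis Ω → (H →L[ℂ] H)) ω (b k)
          = a ((g * k⁻¹) • ω) • b (k * g⁻¹) := hX ω k
      rw [hV' k, map_smul, h1, map_smul, map_smul, star_basis hV', smul_smul, smul_smul, smul_smul]
      congr 1
      have h2 : ph χ t k = ph χ t (k * g⁻¹) * ph χ t g := by
        rw [← ph_mul hχ, inv_mul_cancel_right]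
      have h3 := ph_ne χ t (k * g⁻¹)
      rw [h2]
      show _ = ph χ t g * _
      field_simp
    refine Subtype.ext ?_
    ext1 ω
    exact ext_basis b _ _ fun k => h0 ω k

end Pool.Agent.W135.RO.Rot
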